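import Pool.Agent.Z296.AP.FinA

/-!
# Even numbers minus a common prime: almost all tuples from arbitrary sets

Let `V` be ANY set of integers in `[11 x / 20, x]`. For all but at most `C |V| ^ (k - η)` of the admissible
`k`-tuples `m_1, ..., m_k` of elements of `V` (`C` and `η > 0` depend only on `k`) there are at least
`x / (log x) ^ B` primes `q ≤ x` such that every one of the numbers `m_1 - q, ..., m_k - q` is a prime or a product
of two primes, and these primes are larger than `x ^ δ`. (Admissible tuples consist of even numbers; the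
case `k = 1`, without exceptions, is Chen's theorem.) In particular, for a sparse set `V` of even numbers,
its elements have such representations with the SAME prime `q` for almost all `k`-tuples.

Proof: the coloured sieve with a given prime form and almost primes in all the classes
(`Pool.Agent.Z296.AP.thmQ`), uniform in constant terms as large as the variable, for the forms
`m - n` and the prime form `n`; the number of prime factors is detected in a class by a weighted sieve of
level `111 / 200 > 6 / 11`, summed over the class and averaged by a second moment. Then Erdos's box lemma with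
explicit exponents (`Pool.Agent.Z296.AP.famA_unif`).
-/

set_option autoImplicit false

namespace Pool.Agent.Results.MP_967f73_nt.CommonPrimeChen

open Finset Filter

/-- `m` is a prime `> y` or the product of two primes `> y` -/
def P2 (y : ℝ) (m : ℕ) : Prop :=
  ∃ p : ℕ, p.Prime ∧ y < p ∧ (m = p ∨ ∃ r : ℕ, r.Prime ∧ y < r ∧ m = p * r)

/-- for every prime `p` some residue `r ≠ 0` modulo `p` is different from all the `m i` -/
def Admissible {k : ℕ} (m : Fin k → ℕ) : Prop :=
  ∀ p : ℕ, p.Prime → ∃ r : ℤ, ¬ (p : ℤ) ∣ r ∧ ∀ i, ¬ (p : ℤ) ∣ (m i : ℤ) - r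

/-- the primes `q ≤ x` such that every `m i` is the sum of `q` and of a prime `> y` or a product of
two primes `> y` -/
def Summands {k : ℕ} (x : ℕ) (y : ℝ) (m : Fin k → ℕ) : Set ℕ :=
  {q : ℕ | q ≤ x ∧ q.Prime ∧ ∀ i, ∃ a : ℕ, P2 y a ∧ q + a = m i}

theorem result (k : ℕ) (hk : 1 ≤ k) : ∃ (δ η C : ℝ) (B : ℕ), 0 < δ ∧ 0 < η ∧
    ∀ᶠ x : ℕ in atTop, ∀ V : Finset ℕ, (∀ m ∈ V, 11 * x ≤ 20 * m ∧ m ≤ x) →
      ({m : Fin k → ℕ | (∀ i, m i ∈ V) ∧ Admissible m ∧
        ((Summands x ((x : ℝ) ^ δ) m).ncard : ℝ) < (x : ℝ) / (Real.log x) ^ B}.ncard : ℝ) ≤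
        C * (V.card : ℝ) ^ ((k : ℝ) - η) := by
  classical
  obtain ⟨δ, η, C, B, hδ, hη, -, -, H⟩ := Pool.Agent.Z296.AP.famA_unif k hk
  refine ⟨δ, η, C, B, hδ, hη, ?_⟩
  filter_upwards [H 1] with x hx V hV
  obtain ⟨φ, hφ⟩ : ∃ φ : ℕ → ℤ × ℤ, φ = fun m : ℕ => ((-1 : ℤ), (m : ℤ)) := ⟨_, rfl⟩
  have hφi : Function.Injective φ := by
    intro v v' h
    rw [hφ] at h
    simp only [Prod.mk.injEq] at h
    exact_mod_cast h.2
  have hAd : ∀ f ∈ V.image φ, Pool.Agent.Y827.GS.Adf 1 x f := by
    intro f hf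
    obtain ⟨m, hm, rfl⟩ := mem_image.1 hf
    obtain ⟨h1, h2⟩ := hV m hm
    rw [hφ]
    refine ⟨?_, ?_, ?_, ?_, ?_⟩
    · show (-1 : ℤ) ≠ 0
      norm_num
    · show |(-1 : ℤ)| ≤ ((1 : ℕ) : ℤ)
      norm_num
    · show |(m : ℤ)| ≤ x
      rw [Nat.abs_cast]
      exact_mod_cast h2
    · show IsCoprime (-1 : ℤ) (m : ℤ)
      exact ⟨-1, 0, by ring⟩
    · intro t ht1 ht2
      show (x : ℝ) / 24 ≤ ((-1 : ℤ) : ℝ) * t + ((m : ℤ) : ℝ)
      have h3 : (11 : ℝ) * x ≤ 20 * m := by exact_mod_cast h1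
      have h4 : (0 : ℝ) ≤ x := Nat.cast_nonneg _
      rw [Int.cast_neg, Int.cast_one, Int.cast_natCast]
      linarith
  have hmain := hx (V.image φ) hAd
  rw [card_image_of_injective V hφi] at hmain
  refine le_trans ?_ hmain
  rw [Nat.cast_le, ← Set.ncard_coe_finset]
  refine Set.ncard_le_ncard_of_injOn (fun (m : Fin k → ℕ) (i : Fin k) => φ (m i)) ?_ ?_
    (Finset.finite_toSet _)
  · rintro m ⟨hm1, hm2, hm3⟩
    rw [mem_coe, mem_filter, Fintype.mem_piFinset]
    refine ⟨fun i => mem_image_of_mem _ (hm1 i), ?_, ?_⟩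
    · intro p hp
      obtain ⟨r, hr1, hr2⟩ := hm2 p hp
      refine ⟨r, hr1, fun i h => hr2 i ?_⟩
      rw [hφ] at h
      simp only at h
      have e : (-1 : ℤ) * r + (m i : ℤ) = (m i : ℤ) - r := by ring
      rwa [e] at h
    · refine lt_of_le_of_lt ?_ hm3
      unfold Pool.Agent.Z296.AP.cntQ
      rw [Nat.cast_le, ← Set.ncard_coe_finset]
      apply Set.ncard_le_ncard
      · intro q hq
        rw [mem_coe, mem_filter, mem_Icc] at hq
        obtain ⟨⟨hq1, hq2⟩, hq3, hq4⟩ := hq
        refine ⟨hq2, hq3, fun i => ?_⟩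
        obtain ⟨p, hp1, hp2, hp3⟩ := hq4 i
        rw [hφ] at hp3
        simp only at hp3
        rcases hp3 with hp3 | ⟨r, hr1, hr2, hr3⟩
        · refine ⟨p, ⟨p, hp1, hp2, Or.inl rfl⟩, ?_⟩
          omega
        · refine ⟨p * r, ⟨p, hp1, hp2, Or.inr ⟨r, hr1, hr2, rfl⟩⟩, ?_⟩
          have e : ((q + p * r : ℕ) : ℤ) = ((m i : ℕ) : ℤ) := by
            push_cast
            linarith
          exact_mod_cast e
      · apply (Finset.range (x + 1)).finite_toSet.subset
        rintro q ⟨hq, -⟩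
        rw [mem_coe, mem_range]
        omega
  · intro m _ m' _ he
    funext i
    exact hφi (congrFun he i)

end Pool.Agent.Results.MP_967f73_nt.CommonPrimeChen
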