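import Pool.Agent.helper306_pp.One

/-!
# Every large integer is the sum of a prime and a slightly moved prime

Every prime `q` is moved to the right by a random amount `U q`, uniform on `{0, 1, …, H j - 1}` where
`2 ^ j ≤ q < 2 ^ (j + 1)` and `2 ^ (θ j) ≤ H j ≤ 2 ^ (θ' j)` for all large `j`, with `1 / 3 < θ` and `θ' < 1`;
the amounts are independent. Almost surely the number of representations of `n` as the sum of a prime and a
moved prime is asymptotic to `n / (log n) ^ 2`, for all `n`.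
-/

set_option autoImplicit false

namespace Pool.Agent.Results.MP_967f73_nt.PrimePlusMovedPrime

open MeasureTheory ProbabilityTheory Filter Topology

/-- the number of pairs of primes `(p, q)` with `p + (q + u q) = n` -/
noncomputable def reps (u : ℕ → ℕ) (n : ℕ) : ℕ :=
  {x : ℕ × ℕ | x.1.Prime ∧ x.2.Prime ∧ x.1 + (x.2 + u x.2) = n}.ncard

lemma reps_eq (u : ℕ → ℕ) (n : ℕ) : (reps u n : ℝ) =
    Pool.Agent.helper306_pp.cnt (Pool.Agent.helper306_pp.Pr n) (Pool.Agent.helper306_pp.EvB n) u := by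
  classical
  unfold reps Pool.Agent.helper306_pp.cnt
  have h1 : {x : ℕ × ℕ | x.1.Prime ∧ x.2.Prime ∧ x.1 + (x.2 + u x.2) = n} =
      ((((Pool.Agent.helper306_pp.Pr n).filter (fun q => Pool.Agent.helper306_pp.EvB n q u)).image
        (fun q => (n - (q + u q), q)) : Finset (ℕ × ℕ)) : Set (ℕ × ℕ)) := by
    ext x
    rw [Finset.mem_coe, Finset.mem_image, Set.mem_ofPred_eq]
    constructor
    · rintro ⟨h2, h3, h4⟩
      have h5 : n - (x.2 + u x.2) = x.1 := by omega
      refine ⟨x.2, ?_, ?_⟩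
      · rw [Finset.mem_filter]
        unfold Pool.Agent.helper306_pp.Pr Pool.Agent.helper306_pp.EvB
        rw [Finset.mem_filter, Finset.mem_range, h5]
        exact ⟨⟨by omega, h3⟩, h2⟩
      · rw [h5]
    · rintro ⟨q, hq, rfl⟩
      rw [Finset.mem_filter] at hq
      unfold Pool.Agent.helper306_pp.Pr Pool.Agent.helper306_pp.EvB at hq
      rw [Finset.mem_filter, Finset.mem_range] at hq
      obtain ⟨⟨h2, h3⟩, h4⟩ := hq
      have h5 := h4.two_le
      refine ⟨h4, h3, ?_⟩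
      show n - (q + u q) + (q + u q) = n
      omega
  rw [h1, Set.ncard_coe_finset, Finset.card_image_of_injOn, Finset.sum_boole]
  intro a _ b _ h
  exact (Prod.mk.inj h).2

theorem result (θ θ' : ℝ) (hθ : 1 / 3 < θ) (hθ' : θ' < 1) (H : ℕ → ℕ)
    (h1 : ∀ j, 1 ≤ H j ∧ H j ≤ 2 ^ j)
    (h2 : ∀ᶠ j : ℕ in atTop, (2 : ℝ) ^ (θ * j) ≤ H j ∧ (H j : ℝ) ≤ 2 ^ (θ' * j))
    {Ω : Type*} [MeasurableSpace Ω] (P : Measure Ω) [IsProbabilityMeasure P]
    (U : ℕ → Ω → ℕ) (hU : ∀ q, Measurable (U q)) (hind : iIndepFun U P)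
    (hunif : ∀ q : ℕ, q.Prime → ∀ i < H (Nat.log 2 q),
      P {ω | U q ω = i} = (H (Nat.log 2 q) : ENNReal)⁻¹) :
    ∀ᵐ ω ∂P, Tendsto (fun n : ℕ => (reps (fun q => U q ω) n : ℝ) * Real.log n ^ 2 / n) atTop
      (𝓝 1) := by
  have h := Pool.Agent.helper306_pp.mainB H (fun j => (h1 j).1) (fun j => (h1 j).2) θ θ' hθ hθ'
    (h2.mono fun j hj => hj.1) (h2.mono fun j hj => hj.2) P U hU hind hunif
  filter_upwards [h] with ω hω
  refine hω.congr fun n => ?_
  rw [reps_eq]

end Pool.Agent.Results.MP_967f73_nt.PrimePlusMovedPrime
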