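import Pool.Agent.helper24_UT.Ch18
import Pool.Agent.helper24_UT.R2

set_option autoImplicit false

/-!
# Goldbach's problem for almost all vectors of even numbers, with a SMALL common summand, in all classes to all moduli, or from an arbitrary set

Let `k ≥ 1`, `ε > 0` and `A` be fixed and let `N` be large. For all but at most `N ^ k / (log N) ^ A` of the vectors `v` of integers `1 ≤ v_i ≤ N` and for ALL `y` with
`N ^ (1 / 3 + ε) ≤ y ≤ N` the number of the primes `p ≤ y` for which all `v_i - p` are primes (up to the sign, weighted by logarithms) is `y` times the singular series, cut at `z`,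
with an error `y / (log N) ^ A`; in particular, if there is no local obstruction and `y ≤ v_i`, then `v_i = p + q_i` for all `i` with primes `q_i` and a COMMON prime `p ≤ y`. A similar formula
holds for the number of the `n ≤ y` for which all `v_i - n` are primes, in mean square over all residue classes to all moduli `q ≤ y exp (- 2 √(log N))`. For arbitrary weights `u(n)` (for
instance, for the `n` in an arbitrary set of integers) the primes are compared with the sieve model, in mean square over all classes to all moduli `q ≤ y / (log N) ^ B`.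

Proof. The correlations of the primes minus their sieve model along `v - n`, with arbitrary weights on the `n ≤ y`, are bounded by the mean square of exponential sums over primes in intervals of
length `y` (`Pool.Agent.helper24_UT.Ch.t_MKT`, the method of Mikawa, `y ≥ N ^ (1 / 3 + ε)`); the factors are replaced one after the other.
The theorem of Barban, Davenport and Halberstam for sequences which are equidistributed in classes to small moduli gives the large moduli.
-/

namespace Pool.Agent.Results.MP_967f73_nt.SmallCommonSummands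

open Finset Polynomial

variable {k : ℕ}

/-- all `|v_i - n|` are primes -/
def AllPrime (v : Fin k → ℤ) (n : ℕ) : Prop := ∀ i, (v i - n).natAbs.Prime

open Classical in
/-- `∏ log |v_i - n|` if all these numbers are primes, `0` otherwise -/
noncomputable def lp (v : Fin k → ℤ) (n : ℕ) : ℝ :=
  if AllPrime v n then ∏ i, Real.log ((v i - n).natAbs : ℝ) else 0

open Classical in
/-- the sieve model: the inverse of `∏_{p ≤ z} (1 - 1 / p) ^ k` if all `v_i - n` have no prime factor `p ≤ z`, `0` otherwise -/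
noncomputable def model (z : ℕ) (v : Fin k → ℤ) (n : ℕ) : ℝ :=
  if ∀ p ∈ (Icc 1 z).filter Nat.Prime, ∀ i, ¬ (p : ℤ) ∣ v i - n then
    ((∏ p ∈ (Icc 1 z).filter Nat.Prime, (1 - 1 / (p : ℝ)))⁻¹) ^ k else 0

/-- the sum of `log p ∏ log |v_i - p|` over the primes `p ≤ y` for which all `|v_i - p|` are primes -/
noncomputable def theta (v : Fin k → ℤ) (y : ℕ) : ℝ :=
  ∑ p ∈ (Icc 1 y).filter Nat.Prime, Real.log p * lp v p

/-- the number of the residue classes modulo `w` among `0, v_1, ..., v_k` -/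
def nu (v : Fin k → ℤ) (w : ℕ) : ℕ := ((range w).filter (fun t : ℕ => w ∣ t ∨ ∃ i, (w : ℤ) ∣ v i - t)).card

/-- the singular series of `0, v_1, ..., v_k`, cut at `z` -/
noncomputable def series (v : Fin k → ℤ) (z : ℕ) : ℝ :=
  ∏ w ∈ (Icc 1 z).filter Nat.Prime, (1 - (nu v w : ℝ) / w) / (1 - 1 / (w : ℝ)) ^ (k + 1)

/-- the number of the residues `t` modulo `w` with `w ∣ v_i - (q t + s)` for some `i` -/
def roots (v : Fin k → ℤ) (q s w : ℕ) : ℕ := ((range w).filter (fun t : ℕ => ∃ i, (w : ℤ) ∣ v i - (q * t + s : ℕ))).card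

/-- the product for the `n ≡ s (mod q)`, cut at `z` -/
noncomputable def product (v : Fin k → ℤ) (z q s : ℕ) : ℝ :=
  ∏ w ∈ (Icc 1 z).filter Nat.Prime, (1 - (roots v q s w : ℝ) / w) / (1 - 1 / (w : ℝ)) ^ k

/-- For all `y` with `N ^ (1 / 3 + ε) ≤ y ≤ N`: (1) the formula for the primes `p ≤ y` for which all `|v_i - p|` are primes; (2) if `0, v_1, ..., v_k` do not cover all classes modulo
a prime and `y ≤ v_i` for all `i`, then there are a prime `p ≤ y` and primes `q_i` with `v_i = p + q_i`; (3) for all `Q ≤ y exp (- 2 √(log N))` and all `w q s ≤ y` the sum, over all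
`q ≤ Q` and all classes `s` modulo `q`, of the squares of the error in the formula for the `n ≤ w q s`, `n ≡ s (mod q)`, is at most `y ^ 2 / (log N) ^ A`. -/
def Good (ε : ℝ) (A N z : ℕ) (v : Fin k → ℤ) : Prop :=
  ∀ y : ℕ, (N : ℝ) ^ (1 / 3 + ε) ≤ (y : ℝ) → y ≤ N →
    |theta v y - y * series v z| ≤ y / Real.log N ^ A ∧
    ((∀ w : ℕ, w.Prime → nu v w < w) → (∀ i, (y : ℤ) ≤ v i) →
      ∃ (p : ℕ) (q : Fin k → ℕ), p ≤ y ∧ p.Prime ∧ ∀ i, (q i).Prime ∧ v i = p + q i) ∧
    ∀ Q : ℕ, (Q : ℝ) * Real.exp (2 * Real.sqrt (Real.log N)) ≤ y → ∀ w : ℕ → ℕ → ℕ, (∀ q s, w q s ≤ y) →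
      ∑ q ∈ Icc 1 Q, ∑ s ∈ range q, (∑ n ∈ (Icc 1 (w q s)).filter (fun n => n % q = s), lp v n -
        (w q s : ℝ) / q * product v z q s) ^ 2 ≤ (y : ℝ) ^ 2 / Real.log N ^ A

/-- For the weights `u(n)`: for all `y` with `N ^ (1 / 3 + ε) ≤ y ≤ N`, all `Q ≤ y / (log N) ^ B` and all `w q s ≤ y` the sum,
over all `q ≤ Q` and all classes `s` modulo `q`, of the squares of the sums of `u(n) (lp - model)` over the `n ≤ w q s`,
`n ≡ s (mod q)`, is at most `y ^ 2 / (log N) ^ A`. -/
def GoodW (ε : ℝ) (A B N z : ℕ) (u : ℕ → ℝ) (v : Fin k → ℤ) : Prop :=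
  ∀ y : ℕ, (N : ℝ) ^ (1 / 3 + ε) ≤ (y : ℝ) → y ≤ N →
    ∀ Q : ℕ, (Q : ℝ) * Real.log N ^ B ≤ y → ∀ w : ℕ → ℕ → ℕ, (∀ q s, w q s ≤ y) →
      ∑ q ∈ Icc 1 Q, ∑ s ∈ range q, (∑ n ∈ (Icc 1 (w q s)).filter (fun n => n % q = s),
        u n * (lp v n - model z v n)) ^ 2 ≤ (y : ℝ) ^ 2 / Real.log N ^ A

/-- the polynomials `- x` -/
noncomputable def S (k : ℕ) : Fin k → ℤ[X] := fun _ => -X

lemma S_eval (v : Fin k → ℤ) (t : ℤ) (i : Fin k) : (S k i).eval t + v i = v i - t := by
  unfold S
  rw [eval_neg, eval_X]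
  ring

lemma S_deg (i : Fin k) : (S k i).natDegree = 1 := by
  unfold S
  rw [natDegree_neg, natDegree_X]

lemma all_iff (v : Fin k → ℤ) (n : ℕ) :
    (∀ i, ((S k i).eval (n : ℤ) + v i).natAbs.Prime) ↔ AllPrime v n := by
  simp only [S_eval]
  rfl

lemma prW_eq (v : Fin k → ℤ) (n : ℕ) : Pool.Agent.helper24_UT.prW (S k) v n = lp v n := by
  classical
  unfold Pool.Agent.helper24_UT.prW lp
  by_cases h : AllPrime v n
  · rw [if_pos h, if_pos ((all_iff v n).2 h)]
    simp only [S_eval]
  · rw [if_neg h, if_neg (fun h2 => h ((all_iff v n).1 h2))]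

lemma lz_eq (z : ℕ) (v : Fin k → ℤ) (n : ℕ) :
    ∏ i, Pool.Agent.helper24_UT.lz z ((S k i).eval (n : ℤ) + v i) = model z v n := by
  classical
  have hlz : ∀ a : ℤ, Pool.Agent.helper24_UT.lz z a = if ∀ p ∈ (Icc 1 z).filter Nat.Prime, ¬ (p : ℤ) ∣ a then
      (∏ p ∈ (Icc 1 z).filter Nat.Prime, (1 - 1 / (p : ℝ)))⁻¹ else 0 := by
    intro a
    unfold Pool.Agent.helper24_UT.lz
    by_cases h : ∀ p ∈ (Icc 1 z).filter Nat.Prime, ¬ (p : ℤ) ∣ a
    · rw [if_pos h]
      exact if_pos h
    · rw [if_neg h]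
      exact if_neg h
  unfold model
  by_cases h : ∀ p ∈ (Icc 1 z).filter Nat.Prime, ∀ i, ¬ (p : ℤ) ∣ v i - n
  · rw [if_pos h]
    have e : ∀ i : Fin k, Pool.Agent.helper24_UT.lz z ((S k i).eval (n : ℤ) + v i) =
        (∏ p ∈ (Icc 1 z).filter Nat.Prime, (1 - 1 / (p : ℝ)))⁻¹ := by
      intro i
      rw [S_eval, hlz, if_pos (fun p hp => h p hp i)]
    simp only [e]
    rw [prod_const, card_univ, Fintype.card_fin]
  · rw [if_neg h]
    push Not at h
    obtain ⟨p, hp, i, hi⟩ := h
    apply prod_eq_zero (mem_univ i)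
    rw [S_eval, hlz, if_neg]
    intro h1
    exact h1 p hp hi

lemma product_eq (v : Fin k → ℤ) (z q s : ℕ) : Pool.Agent.helper24_UT.sg z
    (fun i => (S k i).comp (C (q : ℤ) * X + C (s : ℤ)) + C (v i)) = product v z q s := by
  classical
  unfold Pool.Agent.helper24_UT.sg product
  apply prod_congr rfl
  intro w _
  congr 3
  unfold Pool.Agent.helper24_UT.om roots
  congr 2
  ext t
  simp only [mem_filter]
  apply and_congr_right
  intro _
  apply exists_congr
  intro i
  have e : ((S k i).comp (C (q : ℤ) * X + C (s : ℤ)) + C (v i)).eval (t : ℤ) = v i - (q * t + s : ℕ) := by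
    unfold S
    simp only [eval_add, eval_comp, eval_neg, eval_mul, eval_C, eval_X]
    push_cast
    ring
  rw [e]

lemma series_eq (v : Fin k → ℤ) (z : ℕ) :
    Pool.Agent.helper24_UT.sgp z (fun i => S k i + C (v i)) = series v z := by
  classical
  rw [Pool.Agent.helper24_UT.R2.sgp_eq_sg]
  unfold Pool.Agent.helper24_UT.sg series
  apply prod_congr rfl
  intro w _
  congr 3
  unfold Pool.Agent.helper24_UT.om nu
  congr 2
  ext t
  simp only [mem_filter]
  apply and_congr_right
  intro _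
  rw [Fin.exists_fin_succ, Fin.cons_zero, eval_X, Int.natCast_dvd_natCast]
  simp only [Fin.cons_succ, eval_add, eval_C, S_eval]

lemma theta_eq (v : Fin k → ℤ) (y : ℕ) :
    Pool.Agent.helper24_UT.thU Pool.Agent.helper24_UT.lgP (S k) v y = theta v y := by
  classical
  unfold Pool.Agent.helper24_UT.thU theta
  rw [sum_filter, sum_filter]
  apply sum_congr rfl
  intro n _
  rw [← prW_eq]
  unfold Pool.Agent.helper24_UT.prW Pool.Agent.helper24_UT.lgP
  by_cases h1 : ∀ i, ((S k i).eval (n : ℤ) + v i).natAbs.Prime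
  · rw [if_pos h1, if_pos h1]
    by_cases h2 : n.Prime
    · rw [if_pos h2, if_pos h2]
    · rw [if_neg h2, if_neg h2, zero_mul]
  · rw [if_neg h1, if_neg h1]
    by_cases h2 : n.Prime
    · rw [if_pos h2, mul_zero]
    · rw [if_neg h2]

/-- a class that is not covered -/
lemma uncovered (v : Fin k → ℤ) (w : ℕ) (h : nu v w < w) : ∃ t : ℤ, ¬ (w : ℤ) ∣ t ∧ ∀ i, ¬ (w : ℤ) ∣ v i - t := by
  by_contra hcon
  push Not at hcon
  have h1 : (range w).filter (fun t : ℕ => w ∣ t ∨ ∃ i, (w : ℤ) ∣ v i - t) = range w := by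
    apply filter_true_of_mem
    intro t _
    by_cases h2 : w ∣ t
    · exact Or.inl h2
    · exact Or.inr (hcon (t : ℤ) (fun h3 => h2 (Int.natCast_dvd_natCast.1 h3)))
  unfold nu at h
  rw [h1, card_range] at h
  exact lt_irrefl _ h

lemma mem_box (N : ℕ) (v : Fin k → ℤ) (h : v ∈ Fintype.piFinset (fun _ : Fin k => Icc 1 (N : ℤ))) :
    v ∈ Fintype.piFinset (fun _ : Fin k => Icc (-(N : ℤ)) N) := by
  rw [Fintype.mem_piFinset] at h ⊢
  intro i
  have h1 := mem_Icc.1 (h i)
  exact mem_Icc.2 ⟨by omega, h1.2⟩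

open Classical in
/-- **Small common summands in Goldbach's problem for almost all vectors.** -/
theorem result (k : ℕ) (ε : ℝ) (hε : 0 < ε) (A T : ℕ) : ∃ E₀ B : ℕ, ∀ E₁ : ℕ, ∃ N₀ : ℕ, ∀ N : ℕ, N₀ ≤ N → ∀ z : ℕ,
    Real.log N ^ E₀ ≤ z → (z : ℝ) ≤ Real.log N ^ E₁ →
    (((Fintype.piFinset (fun _ : Fin k => Icc 1 (N : ℤ))).filter (fun v => ¬ Good ε A N z v)).card : ℝ) ≤
      (N : ℝ) ^ k / Real.log N ^ A ∧
    ∀ u : ℕ → ℝ, (∀ n, n ≤ N → |u n| ≤ Real.log N ^ T) →
      (((Fintype.piFinset (fun _ : Fin k => Icc 1 (N : ℤ))).filter (fun v => ¬ GoodW ε A B N z u v)).card : ℝ) ≤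
        (N : ℝ) ^ k / Real.log N ^ A := by
  obtain ⟨e, he⟩ := exists_nat_gt (1 / ε)
  have he0 : (0 : ℝ) < e := lt_trans (by positivity) he
  have he1 : 1 ≤ e := by exact_mod_cast he0
  have hle : 1 / (e : ℝ) ≤ ε := by
    rw [div_le_iff₀ he0]
    rw [div_lt_iff₀ hε] at he
    linarith
  have hS := S_deg (k := k)
  obtain ⟨E₀, h⟩ := Pool.Agent.helper24_UT.Ch.t_R27 k 1 (S k) le_rfl hS e (A + 2) he1
  obtain ⟨E₂, h2⟩ := Pool.Agent.helper24_UT.Ch.t_R37 k 1 (S k) le_rfl hS e (A + 2) he1
  obtain ⟨E₀', B, h'⟩ := Pool.Agent.helper24_UT.Ch.t_R36 k 1 (S k) le_rfl hS e A T he1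
  refine ⟨max (max E₀ E₀') E₂, B, fun E₁ => ?_⟩
  obtain ⟨N₀, h0⟩ := h E₁
  obtain ⟨N₀', h0'⟩ := h' E₁
  obtain ⟨N₂, h2⟩ := h2 E₁
  obtain ⟨N₁, h1⟩ := Pool.Agent.helper24_UT.Low.main (k + 1) 1 E₁
  have hlog : Filter.Tendsto (fun N : ℕ => Real.log (N : ℝ)) Filter.atTop Filter.atTop :=
    Real.tendsto_log_atTop.comp tendsto_natCast_atTop_atTop
  obtain ⟨N₃, hN₃⟩ := Filter.eventually_atTop.1 (hlog.eventually_ge_atTop 2)
  refine ⟨N₀ + N₀' + N₂ + N₁ + N₃ + 1, fun N hN z hz1 hz2 => ?_⟩
  have hL2 : 2 ≤ Real.log N := hN₃ N (by omega)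
  have hN1 : 1 ≤ N := by omega
  have hN0 : (0 : ℝ) < N := by exact_mod_cast hN1
  have hL0 : 0 < Real.log N := by linarith
  have hz1a : Real.log N ^ E₀ ≤ z :=
    (pow_le_pow_right₀ (by linarith) ((le_max_left _ _).trans (le_max_left _ _))).trans hz1
  have hz1b : Real.log N ^ E₀' ≤ z :=
    (pow_le_pow_right₀ (by linarith) ((le_max_right _ _).trans (le_max_left _ _))).trans hz1
  have hz1c : Real.log N ^ E₂ ≤ z := (pow_le_pow_right₀ (by linarith) (le_max_right _ _)).trans hz1
  have hrange : ∀ y : ℕ, (N : ℝ) ^ (1 / 3 + ε) ≤ (y : ℝ) → y ≤ N → Pool.Agent.helper24_UT.Yr (1 / 3) e N 1 y := by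
    intro y hy1 hy2
    refine ⟨?_, by rw [pow_one]; exact hy2⟩
    rw [pow_one]
    exact (Real.rpow_le_rpow_of_exponent_le (by exact_mod_cast hN1) (by linarith)).trans hy1
  constructor
  · have key := h0 N (by omega) z hz1a hz2
    have key2 := h2 N (by omega) z hz1c hz2
    set bad1 := (Fintype.piFinset (fun _ : Fin k => Icc (-(N : ℤ)) N)).filter (fun a => ∃ y : ℕ,
      Pool.Agent.helper24_UT.Yr (1 / 3) e N 1 y ∧
      (y : ℝ) / (Real.log N) ^ (A + 2) < |Pool.Agent.helper24_UT.thU Pool.Agent.helper24_UT.lgP (S k) a y -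
        y * Pool.Agent.helper24_UT.sgp z (fun i => S k i + C (a i))|) with hbad1
    set bad2 := (Fintype.piFinset (fun _ : Fin k => Icc (-(N : ℤ)) N)).filter (fun a => ∃ y : ℕ,
      Pool.Agent.helper24_UT.Yr (1 / 3) e N 1 y ∧
      ¬ ∀ Q : ℕ, (Q : ℝ) * Real.exp (2 * Real.sqrt (Real.log N)) ≤ y → ∀ w : ℕ → ℕ → ℕ, (∀ q s, w q s ≤ y) →
        ∑ q ∈ Icc 1 Q, ∑ s ∈ range q, (∑ n ∈ (Icc 1 (w q s)).filter (fun n => n % q = s),
          Pool.Agent.helper24_UT.prW (S k) a n - (w q s : ℝ) / q * Pool.Agent.helper24_UT.sg z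
            (fun i => (S k i).comp (C (q : ℤ) * X + C (s : ℤ)) + C (a i))) ^ 2 ≤
          (y : ℝ) ^ 2 / (Real.log N) ^ (A + 2)) with hbad2
    have hsub : ((Fintype.piFinset (fun _ : Fin k => Icc 1 (N : ℤ))).filter (fun v => ¬ Good ε A N z v)).card ≤
        (bad1 ∪ bad2).card := by
      apply card_le_card
      intro x hx
      have hx := mem_filter.1 hx
      have hmem := mem_box N x hx.1
      rw [mem_union]
      by_contra hcon
      rw [not_or] at hcon
      apply hx.2
      obtain ⟨c1, c2⟩ := hcon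
      intro y hy1 hy2
      have hY := hrange y hy1 hy2
      have hform : |theta x y - y * series x z| ≤ y / Real.log N ^ (A + 2) := by
        by_contra hc
        apply c1
        rw [hbad1, mem_filter]
        refine ⟨hmem, y, hY, ?_⟩
        rw [theta_eq, series_eq]
        exact not_le.1 hc
      have hcl : ∀ Q : ℕ, (Q : ℝ) * Real.exp (2 * Real.sqrt (Real.log N)) ≤ y → ∀ w : ℕ → ℕ → ℕ, (∀ q s, w q s ≤ y) →
          ∑ q ∈ Icc 1 Q, ∑ s ∈ range q, (∑ n ∈ (Icc 1 (w q s)).filter (fun n => n % q = s), lp x n -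
            (w q s : ℝ) / q * product x z q s) ^ 2 ≤ (y : ℝ) ^ 2 / Real.log N ^ (A + 2) := by
        by_contra hc
        apply c2
        rw [hbad2, mem_filter]
        refine ⟨hmem, y, hY, fun h4 => hc ?_⟩
        intro Q hQ w hw
        have h5 := h4 Q hQ w hw
        simp only [prW_eq, product_eq] at h5
        exact h5
      refine ⟨hform.trans ?_, fun hfix hyv => ?_, fun Q hQ w hw => (hcl Q hQ w hw).trans ?_⟩
      · apply div_le_div_of_nonneg_left (Nat.cast_nonneg _) (by positivity)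
        exact pow_le_pow_right₀ (by linarith) (by omega)
      · have hy0 : (0 : ℝ) < y := lt_of_lt_of_le (by positivity) hy1
        have hlow : 1 / Real.log N ≤ series x z := by
          rw [← series_eq, Pool.Agent.helper24_UT.R2.sgp_eq_sg]
          apply h1 N (by omega) z hz2
          · intro i
            refine Fin.cases ?_ (fun j => ?_) i
            · rw [Fin.cons_zero, natDegree_X]
            · rw [Fin.cons_succ, natDegree_add_C]
              exact (hS j).le
          · intro p hp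
            obtain ⟨t, ht0, ht⟩ := uncovered x p (hfix p hp)
            refine ⟨t, fun i => ?_⟩
            refine Fin.cases ?_ (fun j => ?_) i
            · rw [Fin.cons_zero, eval_X]
              exact ht0
            · rw [Fin.cons_succ, eval_add, eval_C, S_eval]
              exact ht j
        have hpos : 0 < theta x y := by
          have h4 := hform
          rw [abs_le] at h4
          have h5 : (y : ℝ) / Real.log N ^ (A + 2) < y * series x z := by
            calc (y : ℝ) / Real.log N ^ (A + 2) < y * (1 / Real.log N) := by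
                  rw [mul_one_div]
                  apply div_lt_div_of_pos_left hy0 hL0
                  calc Real.log N = Real.log N ^ 1 := (pow_one _).symm
                    _ < Real.log N ^ (A + 2) := pow_lt_pow_right₀ (by linarith) (by omega)
              _ ≤ _ := mul_le_mul_of_nonneg_left hlow hy0.le
          linarith [h4.1]
        have hex : ∃ p : ℕ, p ≤ y ∧ p.Prime ∧ AllPrime x p := by
          by_contra hno
          push Not at hno
          have hz : theta x y = 0 := by
            unfold theta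
            apply sum_eq_zero
            intro p hp
            have hp1 := mem_filter.1 hp
            unfold lp
            rw [if_neg (hno p (mem_Icc.1 hp1.1).2 hp1.2), mul_zero]
          linarith
        obtain ⟨p, hp1, hp2, hp3⟩ := hex
        refine ⟨p, fun i => (x i - p).natAbs, hp1, hp2, fun i => ⟨hp3 i, ?_⟩⟩
        have h4 := hyv i
        have h5 : (p : ℤ) ≤ y := by exact_mod_cast hp1
        show x i = p + ((x i - p).natAbs : ℤ)
        rw [Int.natCast_natAbs, abs_of_nonneg (by linarith)]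
        ring
      · apply div_le_div_of_nonneg_left (by positivity) (by positivity)
        exact pow_le_pow_right₀ (by linarith) (by omega)
    refine (Nat.cast_le.2 (hsub.trans (card_union_le _ _))).trans ?_
    rw [Nat.cast_add]
    refine (add_le_add key key2).trans ?_
    have hP0 : 0 ≤ (N : ℝ) ^ k / Real.log N ^ A := by positivity
    have h4 : (N : ℝ) ^ k / Real.log N ^ (A + 2) ≤ (N : ℝ) ^ k / Real.log N ^ A * (1 / 4) := by
      have h5 : Real.log N ^ A * 4 ≤ Real.log N ^ (A + 2) := by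
        rw [pow_add]
        apply mul_le_mul_of_nonneg_left _ (by positivity)
        nlinarith
      rw [div_mul_div_comm, mul_one]
      exact div_le_div_of_nonneg_left (by positivity) (by positivity) h5
    linarith
  · intro u hu
    have key := h0' N (by omega) z hz1b hz2 u hu
    refine le_trans ?_ key
    refine Nat.cast_le.2 (card_le_card ?_)
    intro x hx
    have hx := mem_filter.1 hx
    rw [mem_filter]
    refine ⟨mem_box N x hx.1, ?_⟩
    by_contra hcon
    push Not at hcon
    apply hx.2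
    intro y hy1 hy2 Q hQ w hw
    have h4 := hcon y (hrange y hy1 hy2) Q hQ w hw
    simp only [prW_eq, lz_eq] at h4
    exact h4

end Pool.Agent.Results.MP_967f73_nt.SmallCommonSummands
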