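import Mathlib
import Pool.Agent.H35_SD.Tot

/-!
# `√δ + √γ ≥ 1`: solvable systems against differences of primes, near every large integer

Let `M` be any large integer and `V` any set of at least `n₀(ε)` multiples of an absolute constant `W` in
`[0, M/10]` (for instance a bounded set; `V` may depend on `M`). Let

* `γ` be the proportion of the pairs `(u, v) ∈ V²` for which the system `φ(n - x) + 1 = n - x`,
  `φ(n + x) + 1 = n + x` with `n = M + u + v` has at least `M / (log M)^C` integral solutions
  (so `2 n` is a sum of two primes in as many ways), and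
* `δ` the proportion of the pairs `(u, v) ∈ V²` for which `u = v` or `2 (v - u)` is a difference of two primes
  `≤ 4 M + |2 (v - u)|` in at least `M / (log M)^C` ways.

Then `√δ + √γ ≥ 1 - ε` and `δ + γ ≥ 2/3 - ε`.

So if the system is unsolvable for all (or almost all) of the `n` of a set `M + V + V` then almost all of the
differences `2 (v - u)` are differences of primes; and if at most a third of these are, then the system is
solvable for a third of the pairs. It is not known that `γ > 0` (for bounded `V` this would mean bounded gaps
between the integers for which the system is solvable), nor that `δ > 1/3`.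

Proof: by the coloured Maynard-Tao theorem with the constant `18/5`, uniform in the linear forms
(`Pool.Agent.Y827.RO.lamRD`, starting files), two of any four large disjoint families of the forms `n + 2 u`,
`2 M + 2 v - n` contain forms which are prime together often. Random samples of two copies of `V` therefore have no
four pairwise non-realised points (Erdős's box lemma); the rest is a new inequality for two copies of a graph
(`Pool.Agent.H35_SD.two_copies`): level sets of the column sums together with Turán's theorem.
-/

set_option autoImplicit false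

namespace Pool.Agent.Results.MP_967f73_nt.SumsAndDifferences

/-- `x` is an integral solution of the system `φ(n - x) + 1 = n - x`, `φ(n + x) + 1 = n + x`. -/
def Solution (n : ℕ) (x : ℤ) : Prop :=
  1 ≤ (n : ℤ) - x ∧ 1 ≤ (n : ℤ) + x ∧ (Nat.totient ((n : ℤ) - x).toNat : ℤ) + 1 = (n : ℤ) - x ∧
    (Nat.totient ((n : ℤ) + x).toNat : ℤ) + 1 = (n : ℤ) + x

/-- the number of the integral solutions of the system -/
noncomputable def solutions (n : ℕ) : ℕ := {x : ℤ | Solution n x}.ncard

/-- the number of the primes `p ≤ 4 M` for which `p + 2 (v - u)` is a prime, too -/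
noncomputable def differences (M u v : ℕ) : ℕ :=
  {p : ℕ | p ≤ 4 * M ∧ p.Prime ∧ ∃ q : ℕ, q.Prime ∧ p + 2 * v = q + 2 * u}.ncard

open Classical in
/-- the proportion of the pairs `(u, v)` of elements of `V` for which `u = v` or `2 (v - u)` is a difference of
two primes in at least `M / (log M) ^ C` ways -/
noncomputable def δ (C M : ℕ) (V : Finset ℕ) : ℝ :=
  (((V ×ˢ V).filter (fun q => q.1 = q.2 ∨ (M : ℝ) / Real.log M ^ C ≤ (differences M q.1 q.2 : ℝ))).card : ℝ) /
    (V.card : ℝ) ^ 2

open Classical in
/-- the proportion of the pairs `(u, v)` of elements of `V` for which the system for `n = M + u + v` has at least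
`M / (log M) ^ C` integral solutions -/
noncomputable def γ (C M : ℕ) (V : Finset ℕ) : ℝ :=
  (((V ×ˢ V).filter (fun q => (M : ℝ) / Real.log M ^ C ≤ (solutions (M + q.1 + q.2) : ℝ))).card : ℝ) /
    (V.card : ℝ) ^ 2

/-- There are absolute constants `W ≥ 1`, `C`, `M₀` and for every `ε > 0` an `n₀` such that for all `M ≥ M₀` and all
sets `V` of at least `n₀` multiples of `W` in `[0, M / 10]`: `√δ + √γ ≥ 1 - ε` and `δ + γ ≥ 2 / 3 - ε`. -/
theorem result : ∃ W C M₀ : ℕ, 1 ≤ W ∧ ∀ ε : ℝ, 0 < ε → ∃ n₀ : ℕ, ∀ M : ℕ, M₀ ≤ M →
    ∀ V : Finset ℕ, n₀ ≤ V.card → (∀ v ∈ V, W ∣ v ∧ 10 * v ≤ M) →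
    1 - ε ≤ Real.sqrt (δ C M V) + Real.sqrt (γ C M V) ∧ 2 / 3 - ε ≤ δ C M V + γ C M V :=
  Pool.Agent.H35_SD.main_tot

end Pool.Agent.Results.MP_967f73_nt.SumsAndDifferences
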